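import Pool.Agent.Helper69.SHT.St

set_option autoImplicit false

/-!
# Project SHT, module MUX: the multipliers
-/

namespace Pool.Agent.Helper61.SHT

open Finset Filter Pool.Agent.Helper82.CN Pool.Agent.Helper11.PV Pool.Agent.Helper69.VX
  Pool.Agent.Helper69.UX Pool.Agent.Helper69.SHT

private lemma fact_lower_MUX (k : ℕ) (hk : 1 ≤ k) :
    (k : ℝ) * Real.log k - k ≤ Real.log (k.factorial) := by
  have hk0 : (0 : ℝ) < k := by exact_mod_cast hk
  have h := Real.pow_div_factorial_le_exp (k : ℝ) hk0.le k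
  have hf : (0 : ℝ) < (k.factorial : ℝ) := by exact_mod_cast k.factorial_pos
  have h2 : (k : ℝ) ^ k ≤ Real.exp k * (k.factorial : ℝ) := by
    rwa [div_le_iff₀ hf] at h
  have h3 := Real.log_le_log (by positivity) h2
  rw [Real.log_pow, Real.log_mul (Real.exp_pos _).ne' hf.ne', Real.log_exp] at h3
  linarith

private lemma fact_upper_MUX (k : ℕ) (hk : 1 ≤ k) :
    Real.log (k.factorial) ≤ (k : ℝ) * Real.log k - k + Real.log k + 1 := by
  induction k, hk using Nat.le_induction with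
  | base => simp
  | succ k hk ih =>
    have hk0 : (0 : ℝ) < k := by exact_mod_cast hk
    have hf : (0 : ℝ) < (k.factorial : ℝ) := by exact_mod_cast k.factorial_pos
    have h1 : Real.log ((k : ℝ) / (k + 1)) ≤ (k : ℝ) / (k + 1) - 1 :=
      Real.log_le_sub_one_of_pos (by positivity)
    rw [Real.log_div hk0.ne' (by positivity)] at h1
    have h2 : ((k : ℝ) + 1) * (Real.log k - Real.log (k + 1)) ≤ -1 := by
      have h3 := mul_le_mul_of_nonneg_left h1 (show (0 : ℝ) ≤ (k : ℝ) + 1 by positivity)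
      have h4 : ((k : ℝ) + 1) * ((k : ℝ) / (k + 1) - 1) = -1 := by
        field_simp
        ring
      linarith
    rw [Nat.factorial_succ]
    push_cast
    rw [Real.log_mul (by positivity) hf.ne']
    nlinarith [ih, h2]

private lemma om_pos_MUX (p : ℝ) (hp1 : p < 1) (u : ℕ) : 0 < om p u := by
  unfold om
  have h1 : 0 < 1 - p := by linarith
  have h2 : (0 : ℝ) < (u.factorial : ℝ) := by exact_mod_cast u.factorial_pos
  positivity

private lemma log_om_MUX (p : ℝ) (hp1 : p < 1) (n T : ℕ) :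
    Real.log (om p T) = hv p n T - T * Real.log n := by
  have h1 : 0 < 1 - p := by linarith
  have h2 : (0 : ℝ) < (T.factorial : ℝ) := by exact_mod_cast T.factorial_pos
  unfold om hv bb
  rw [Real.log_div (by positivity) h2.ne', Real.log_pow, one_div, Real.log_inv]
  ring

private lemma bb_bounds_MUX (p : ℝ) (hp0 : 0 < p) (hp1 : p ≤ 1 - 1 / Real.exp 2) :
    p < 1 ∧ 0 < bb p ∧ bb p ≤ 2 := by
  have he : (0 : ℝ) < 1 / Real.exp 2 := by positivity
  have hp : p < 1 := by linarith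
  have hq : 0 < 1 - p := by linarith
  refine ⟨hp, ?_, ?_⟩
  · unfold bb
    apply Real.log_pos
    rw [lt_div_iff₀ hq]
    linarith
  · unfold bb
    rw [Real.log_le_iff_le_exp (by positivity), div_le_iff₀ hq]
    have h1 : 1 / Real.exp 2 ≤ 1 - p := by linarith
    calc (1 : ℝ) = Real.exp 2 * (1 / Real.exp 2) := by
          field_simp
      _ ≤ Real.exp 2 * (1 - p) := mul_le_mul_of_nonneg_left h1 (Real.exp_pos _).le

private lemma le_of_sq_le_sq_MUX {a b : ℝ} (h : a ^ 2 ≤ b ^ 2) (hb : 0 ≤ b) : a ≤ b := by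
  by_contra hc
  push Not at hc
  have h1 : b ^ 2 < a ^ 2 := pow_lt_pow_left₀ hc hb (by norm_num)
  linarith

private lemma big_MUX (T l n η : ℝ) (hT4 : 4 ≤ T) (hl1 : 1 ≤ l) (hn : 1 ≤ n) (hη1 : η ≤ 1)
    (h3 : T ^ 8 ≤ n ^ η) (h6 : l ^ 8 ≤ n ^ η) : 2 * T * l ≤ n := by
  have hn0 : 0 < n := by linarith
  have h1 : n ^ η ≤ n := by
    calc n ^ η ≤ n ^ (1 : ℝ) := Real.rpow_le_rpow_of_exponent_le hn hη1
      _ = n := Real.rpow_one n
  have h2 : ((T * l) ^ 4) ^ 2 ≤ n ^ 2 := by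
    calc ((T * l) ^ 4) ^ 2 = T ^ 8 * l ^ 8 := by ring
      _ ≤ n * n := mul_le_mul (h3.trans h1) (h6.trans h1) (by positivity) hn0.le
      _ = n ^ 2 := (sq n).symm
  have h4 : (T * l) ^ 4 ≤ n := by
    exact le_of_sq_le_sq_MUX h2 hn0.le
  have h5 : 4 ≤ T * l := by
    calc (4 : ℝ) = 4 * 1 := by norm_num
      _ ≤ T * l := mul_le_mul hT4 hl1 (by norm_num) (by linarith)
  have h7 : (2 : ℝ) ≤ (T * l) ^ 3 := by
    calc (2 : ℝ) ≤ 4 ^ 3 := by norm_num
      _ ≤ (T * l) ^ 3 := pow_le_pow_left₀ (by norm_num) h5 3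
  calc 2 * T * l = 2 * (T * l) := by ring
    _ ≤ (T * l) ^ 3 * (T * l) := mul_le_mul_of_nonneg_right h7 (by linarith)
    _ = (T * l) ^ 4 := by ring
    _ ≤ n := h4

/-- the real number part -/
private lemma core_MUX (L l T m x th hvv lk lC lT lam δ₁ δ₂ δ' ε r : ℝ) (hL0 : 0 < L)
    (hl0 : 0 < l) (hε : 0 < ε) (hth0 : 0 ≤ th) (hA : 12 * ε ≤ 2 / L - th)
    (hm0 : 0 ≤ m) (hm1 : m - (2 / L - th) ≤ δ₁) (hm2 : -δ₁ ≤ m - (2 / L - th)) (hδ1 : δ₁ ≤ 1)
    (hδ10 : 0 < δ₁) (hδ1' : δ₁ ≤ δ' / 2) (hr0 : 0 ≤ r)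
    (hr : (2 + 1 / L) * δ₂ + δ₁ ≤ 12 * ε * r) (hr2 : r ≤ 1 / 2)
    (hrB : r * (2 / L + δ' / 2) ≤ δ' / 2)
    (hUp : -lam ≤ (T - m) * x + (T - m)) (hLo : (T - m) * x + (T - m) - 2 ≤ -lam)
    (hlk : lk = lam + x * T + hvv) (hlk2 : l - lC - lT ≤ lk)
    (hhv : hvv ≤ (1 + th) * l + δ₂ * l) (hT : (2 - δ₂) * l ≤ L * T)
    (hsm : lC + lT + (2 / L + 3) ≤ δ₂ * l) (hT2 : L * T ≤ 2 * l) :
    l / 2 ≤ x ∧ -lam ≤ x * (T + th + δ') := by
  have hTl : (2 - δ₂) * l / L ≤ T := by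
    rw [div_le_iff₀ hL0]
    linarith
  have hTu : T ≤ 2 / L * l := by
    rw [div_mul_eq_mul_div, le_div_iff₀ hL0]
    linarith
  have e1 : (2 - δ₂) * l / L = l * (2 / L - 1 / L * δ₂) := by
    field_simp
  rw [e1] at hTl
  have hxm : l * (2 / L - th - (2 + 1 / L) * δ₂) ≤ x * m := by
    have h1 : T - m - 2 + lk - hvv ≤ x * m := by
      have h2 : (T - m) * x = x * T - x * m := by ring
      linarith
    have h3 : l * (2 / L - th - (2 + 1 / L) * δ₂) = l * (2 / L - 1 / L * δ₂) - th * l - 2 * (δ₂ * l) := by ring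
    have h4 : (1 + th) * l = l + th * l := by ring
    rw [h3]
    linarith
  have h12 : 12 * ε * r ≤ 6 * ε := by
    have h : 12 * ε * r ≤ 12 * ε * (1 / 2) := mul_le_mul_of_nonneg_left hr2 (by linarith)
    linarith
  have hpos : 0 < 2 / L - th - (2 + 1 / L) * δ₂ := by linarith
  have hxm0 : 0 < x * m := lt_of_lt_of_le (mul_pos hl0 hpos) hxm
  have hx0 : 0 < x := by
    by_contra h
    push Not at h
    have := mul_nonpos_of_nonpos_of_nonneg h hm0
    linarith
  have hxA : x * m ≤ x * (2 / L - th + δ₁) := mul_le_mul_of_nonneg_left (by linarith) hx0.le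
  have hAd : 0 < 2 / L - th + δ₁ := by linarith
  have h5 : l * (1 - r) * (2 / L - th + δ₁) ≤ l * (2 / L - th - (2 + 1 / L) * δ₂) := by
    rw [mul_assoc]
    refine mul_le_mul_of_nonneg_left ?_ hl0.le
    have h6 : r * (12 * ε) ≤ r * (2 / L - th + δ₁) := mul_le_mul_of_nonneg_left (by linarith) hr0
    have h7 : (1 - r) * (2 / L - th + δ₁) = (2 / L - th + δ₁) - r * (2 / L - th + δ₁) := by ring
    rw [h7]
    linarith
  have hx1 : l * (1 - r) ≤ x := le_of_mul_le_mul_right (h5.trans (hxm.trans hxA)) hAd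
  have hB : 0 < 2 / L + δ' / 2 := by
    have : 0 < 2 / L := by positivity
    linarith
  have hlr : l / 2 ≤ l * (1 - r) := by
    have : l * (1 / 2) ≤ l * (1 - r) := mul_le_mul_of_nonneg_left (by linarith) hl0.le
    linarith
  refine ⟨hlr.trans hx1, ?_⟩
  have h8 : T ≤ x * (2 / L + δ' / 2) := by
    have h9 : l * (1 - r) * (2 / L + δ' / 2) ≤ x * (2 / L + δ' / 2) := mul_le_mul_of_nonneg_right hx1 hB.le
    have h10 : l * (2 / L) ≤ l * (1 - r) * (2 / L + δ' / 2) := by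
      rw [mul_assoc]
      refine mul_le_mul_of_nonneg_left ?_ hl0.le
      have h11 : (1 - r) * (2 / L + δ' / 2) = 2 / L + δ' / 2 - r * (2 / L + δ' / 2) := by ring
      rw [h11]
      linarith
    linarith
  have h13 : x * (T - m + (2 / L + δ' / 2)) ≤ x * (T + th + δ') :=
    mul_le_mul_of_nonneg_left (by linarith) hx0.le
  have h14 : x * (T - m + (2 / L + δ' / 2)) = (T - m) * x + x * (2 / L + δ' / 2) := by ring
  linarith

private lemma log5_MUX : (3 : ℝ) / 2 ≤ Real.log 5 := by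
  rw [Real.le_log_iff_exp_le (by norm_num)]
  have h1 : Real.exp (3 / 2) ^ 2 = Real.exp 1 ^ 3 := by
    rw [← Real.exp_nat_mul, ← Real.exp_nat_mul]
    norm_num
  have h2 : Real.exp 1 ^ 3 ≤ 2.7182818286 ^ 3 :=
    pow_le_pow_left₀ (Real.exp_pos _).le Real.exp_one_lt_d9.le 3
  apply le_of_sq_le_sq_MUX
  · rw [h1]
    refine h2.trans ?_
    norm_num
  · norm_num

theorem hMUX : StSIZ → StMUX := by
  intro hSIZ p ε C δ' hp0 hp1 hε0 hε1 hC hδ'0 hδ'1
  obtain ⟨hp1', hL0, hL2⟩ := bb_bounds_MUX p hp0 hp1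
  obtain ⟨L, hLdef⟩ : ∃ L, L = bb p := ⟨_, rfl⟩
  rw [← hLdef] at hL0 hL2
  have hC0 : 0 < C := by linarith
  have hlC : 0 ≤ Real.log C := Real.log_nonneg hC
  have h2L0 : 0 < 2 / L := by positivity
  have h2L : 1 ≤ 2 / L := by
    rw [le_div_iff₀ hL0]
    linarith
  obtain ⟨B, hB⟩ : ∃ B, B = 2 / L + δ' / 2 := ⟨_, rfl⟩
  have hB0 : 0 < B := by rw [hB]; linarith
  obtain ⟨r, hr⟩ : ∃ r, r = min (1 / 2) (δ' / 2 / B) := ⟨_, rfl⟩
  have hr0 : 0 < r := by
    rw [hr]
    exact lt_min (by norm_num) (by positivity)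
  have hr2 : r ≤ 1 / 2 := by rw [hr]; exact min_le_left _ _
  have hrB : r * B ≤ δ' / 2 := by
    have h : r ≤ δ' / 2 / B := by rw [hr]; exact min_le_right _ _
    rwa [le_div_iff₀ hB0] at h
  obtain ⟨δ₁, hδ₁⟩ : ∃ d, d = min (min (δ' / 2) 1) (6 * ε * r) := ⟨_, rfl⟩
  have hδ10 : 0 < δ₁ := by
    rw [hδ₁]
    exact lt_min (lt_min (by linarith) (by norm_num)) (by positivity)
  have hδ1a : δ₁ ≤ δ' / 2 := by rw [hδ₁]; exact (min_le_left _ _).trans (min_le_left _ _)
  have hδ1b : δ₁ ≤ 1 := by rw [hδ₁]; exact (min_le_left _ _).trans (min_le_right _ _)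
  have hδ1c : δ₁ ≤ 6 * ε * r := by rw [hδ₁]; exact min_le_right _ _
  obtain ⟨δ₂, hδ₂⟩ : ∃ d, d = 6 * ε * r / (2 + 1 / L) := ⟨_, rfl⟩
  have h1L : 0 < 1 / L := by positivity
  have hδ20 : 0 < δ₂ := by rw [hδ₂]; positivity
  have hδ2a : (2 + 1 / L) * δ₂ = 6 * ε * r := by
    rw [hδ₂]
    field_simp
  obtain ⟨D, hD⟩ : ∃ D, D = 2 * (Real.log C + (2 / L + 3)) := ⟨_, rfl⟩
  have hD1 : 1 ≤ D := by rw [hD]; linarith
  have hD0 : 0 < D := by linarith
  obtain ⟨η, hη⟩ : ∃ η, η = min δ₂ (min ε 1) / D := ⟨_, rfl⟩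
  have hη0 : 0 < η := by
    rw [hη]
    exact div_pos (lt_min hδ20 (lt_min hε0 (by norm_num))) hD0
  have hηD : η * D = min δ₂ (min ε 1) := by
    rw [hη]
    field_simp
  have hηD1 : η * D ≤ δ₂ := by rw [hηD]; exact min_le_left _ _
  have hηm : η ≤ min δ₂ (min ε 1) := by
    rw [← hηD]
    exact le_mul_of_one_le_right hη0.le hD1
  have hηd : η ≤ δ₂ := hηm.trans (min_le_left _ _)
  have hηε : η ≤ ε := hηm.trans ((min_le_right _ _).trans (min_le_left _ _))
  have hη1 : η ≤ 1 := hηm.trans ((min_le_right _ _).trans (min_le_right _ _))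
  refine ⟨δ₁, hδ10, ?_⟩
  obtain ⟨n1, hn1⟩ := hSIZ p ε η 1 hp0 hp1 hε0 hε1 hη0
  refine ⟨n1, ?_⟩
  intro n T th κ lam mu hn hW hP
  have hs := hn1 n T th hn hW
  obtain ⟨-, hth0, hth1⟩ := hW
  obtain ⟨hT04, hTn⟩ := hs.t4
  have hT4n : 4 ≤ T := by omega
  have hnge : 1 ≤ n := by omega
  have hT5 : (5 : ℝ) ≤ T := by exact_mod_cast (show 5 ≤ T by omega)
  have hT4 : (4 : ℝ) ≤ T := by linarith
  have hTpos : (0 : ℝ) < T := by linarith
  have hn1r : (1 : ℝ) ≤ n := by exact_mod_cast hnge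
  have hn0 : (0 : ℝ) < n := by linarith
  obtain ⟨l, hl⟩ : ∃ l, l = Real.log n := ⟨_, rfl⟩
  have hl0' : 1 / η ≤ l := by rw [hl]; exact hs.t0
  have hηl : 1 ≤ η * l := by
    rw [div_le_iff₀ hη0] at hl0'
    linarith
  have hlpos : 0 < l := by
    have : 0 < 1 / η := by positivity
    linarith
  have hl1 : 1 ≤ l := hηl.trans (mul_le_of_le_one_left hlpos.le hη1)
  have hηld : η * l ≤ δ₂ * l := mul_le_mul_of_nonneg_right hηd hlpos.le
  have ht3 : (T : ℝ) ^ 8 ≤ (n : ℝ) ^ η := hs.t3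
  have hlT : Real.log T ≤ η * l / 8 := by
    have h1 := Real.log_le_log (by positivity) ht3
    rw [Real.log_pow, Real.log_rpow hn0, ← hl] at h1
    push_cast at h1
    linarith
  have hT1 : |L * T - 2 * l| ≤ η * l := by
    have := hs.t1
    rwa [← hLdef, ← hl] at this
  have hT2 : |L * T - 2 * l + 2 * Real.log T| ≤ 3 := by
    have := hs.t2
    rwa [← hLdef, ← hl] at this
  have hhv : |hv p n T - (1 + th) * l| ≤ η * l := by
    have h1 := hs.t5 T (by omega) (by omega)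
    rw [← hl] at h1
    have h2 : (T : ℝ) + 1 + th - T = 1 + th := by ring
    rwa [h2] at h1
  have hnT : 2 * (T : ℝ) * l ≤ n :=
    big_MUX T l n η hT4 hl1 hn1r hη1 ht3 (by rw [hl]; exact hs.t6)
  have hlogT : 3 / 2 ≤ Real.log T := log5_MUX.trans (Real.log_le_log (by norm_num) hT5)
  -- positivity
  have hκ0 : ∀ u, 0 ≤ κ u := by
    intro u
    by_cases h : 1 ≤ u ∧ u ≤ T
    · rw [hP.eq u h.1 h.2]
      exact mul_nonneg (Real.exp_pos _).le (om_pos_MUX p hp1' u).le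
    · rw [hP.zer u (by omega)]
  obtain ⟨K, hK⟩ : ∃ K, K = KK T κ := ⟨_, rfl⟩
  have hKs : K = ∑ u ∈ range (T + 1), κ u := hK
  have hnK : (n : ℝ) ≤ T * K := by
    rw [← hP.sum, hKs, mul_sum]
    refine sum_le_sum fun u hu => mul_le_mul_of_nonneg_right ?_ (hκ0 u)
    rw [mem_range] at hu
    exact_mod_cast (show u ≤ T by omega)
  have hK0 : 0 < K := by
    by_contra h
    push Not at h
    have := mul_nonpos_of_nonneg_of_nonpos hTpos.le h
    linarith
  have hKT : (n : ℝ) / T ≤ K := by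
    rw [div_le_iff₀ hTpos]
    linarith
  have hM : ∑ u ∈ range (T + 1), ((T : ℝ) - u) * κ u = T * K - n := by
    rw [← hP.sum, hKs, mul_sum, ← sum_sub_distrib]
    refine sum_congr rfl fun u _ => by ring
  have hM0 : 0 ≤ T * K - (n : ℝ) := by linarith
  obtain ⟨m, hm⟩ : ∃ m, m = (T * K - (n : ℝ)) / K := ⟨_, rfl⟩
  have hmK : m * K = T * K - n := by
    rw [hm]
    field_simp
  have hm0 : 0 ≤ m := by
    rw [hm]
    exact div_nonneg hM0 hK0.le
  have hTmK : (T - m) * K = n := by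
    have : (T - m) * K = T * K - m * K := by ring
    rw [this, hmK]
    ring
  have hmean := hP.mean
  rw [hM, ← hK, ← hLdef, ← hmK] at hmean
  have hmean2 : |m - (2 / L - th)| ≤ δ₁ := by
    have h1 : m * K - (2 / L - th) * K = (m - (2 / L - th)) * K := by ring
    rw [h1, abs_mul, abs_of_pos hK0] at hmean
    exact le_of_mul_le_mul_right hmean hK0
  rw [abs_le] at hmean2
  -- the entropy equation
  have hent := hP.ent
  rw [← hK] at hent
  have hpw0 : 0 < (n : ℝ) ^ (th + 3 * ε) := Real.rpow_pos_of_pos hn0 _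
  have hn9 : (n : ℝ) ^ (th + 3 * ε) ≤ n / T := by
    rw [le_div_iff₀ hTpos]
    have h1 : (T : ℝ) ≤ (n : ℝ) ^ (9 * ε) := by
      calc (T : ℝ) = (T : ℝ) ^ 1 := (pow_one _).symm
        _ ≤ (T : ℝ) ^ 8 := pow_le_pow_right₀ (by linarith) (by norm_num)
        _ ≤ (n : ℝ) ^ η := ht3
        _ ≤ (n : ℝ) ^ (9 * ε) := Real.rpow_le_rpow_of_exponent_le hn1r (by linarith)
    calc (n : ℝ) ^ (th + 3 * ε) * T ≤ (n : ℝ) ^ (1 - 9 * ε) * (n : ℝ) ^ (9 * ε) :=
          mul_le_mul (Real.rpow_le_rpow_of_exponent_le hn1r (by linarith)) h1 hTpos.le (by positivity)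
      _ = (n : ℝ) ^ ((1 - 9 * ε) + 9 * ε) := (Real.rpow_add hn0 _ _).symm
      _ = n := by
        rw [show (1 - 9 * ε) + 9 * ε = (1 : ℝ) by ring, Real.rpow_one]
  have hlK : l + 1 ≤ K := by
    have h1 : 2 * l ≤ (n : ℝ) / T := by
      rw [le_div_iff₀ hTpos]
      linarith
    linarith
  have hfl := fact_lower_MUX n hnge
  have hfu := fact_upper_MUX n hnge
  rw [← hl] at hfl hfu
  obtain ⟨x, hx⟩ : ∃ x, x = mu - l := ⟨_, rfl⟩
  have hmu : mu = x + l := by rw [hx]; ring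
  have hUp : -lam ≤ (T - m) * x + (T - m) := by
    have h1 : -lam * K ≤ ((T - m) * x + (T - m)) * K := by
      have h2 : ((T - m) * x + (T - m)) * K = ((T - m) * K) * x + (T - m) * K := by ring
      rw [h2, hTmK]
      have h3 : mu * n = x * n + l * n := by rw [hmu]; ring
      have h4 : -lam * K = -(lam * K) := by ring
      have h5 : (n : ℝ) * l = l * n := by ring
      have h6 : (n : ℝ) * x = x * n := by ring
      linarith
    exact le_of_mul_le_mul_right h1 hK0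
  have hLo : (T - m) * x + (T - m) - 2 ≤ -lam := by
    have h1 : ((T - m) * x + (T - m) - 2) * K ≤ -lam * K := by
      have h2 : ((T - m) * x + (T - m) - 2) * K = ((T - m) * K) * x + (T - m) * K - 2 * K := by ring
      rw [h2, hTmK]
      have h3 : mu * n = x * n + l * n := by rw [hmu]; ring
      have h4 : -lam * K = -(lam * K) := by ring
      have h5 : (n : ℝ) * l = l * n := by ring
      have h6 : (n : ℝ) * x = x * n := by ring
      linarith
    exact le_of_mul_le_mul_right h1 hK0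
  -- the top size
  have hκT : 0 < κ T := by
    rw [hP.eq T (by omega) le_rfl]
    exact mul_pos (Real.exp_pos _) (om_pos_MUX p hp1' T)
  have hlk : Real.log (κ T) = lam + x * T + hv p n T := by
    rw [hP.eq T (by omega) le_rfl, Real.log_mul (Real.exp_pos _).ne' (om_pos_MUX p hp1' T).ne',
      Real.log_exp, log_om_MUX p hp1' n T, ← hl, hmu]
    ring
  have hlk2 : l - Real.log C - Real.log T ≤ Real.log (κ T) := by
    have h1 : (n : ℝ) / T ≤ C * κ T := hKT.trans (by rw [hK]; exact hP.top)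
    have h2 := Real.log_le_log (by positivity) h1
    rw [Real.log_div hn0.ne' hTpos.ne', Real.log_mul hC0.ne' hκT.ne', ← hl] at h2
    linarith
  rw [abs_le] at hT1 hT2 hhv
  have hsm : Real.log C + Real.log T + (2 / L + 3) ≤ δ₂ * l := by
    have h1 : D ≤ δ₂ * l := by
      calc D = D * 1 := (mul_one D).symm
        _ ≤ D * (η * l) := mul_le_mul_of_nonneg_left hηl hD0.le
        _ = (η * D) * l := by ring
        _ ≤ δ₂ * l := mul_le_mul_of_nonneg_right hηD1 hlpos.le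
    have h2 : Real.log C + (2 / L + 3) = D / 2 := by rw [hD]; ring
    have h3 : 0 < δ₂ * l := by positivity
    linarith
  have := core_MUX L l T m x th (hv p n T) (Real.log (κ T)) (Real.log C) (Real.log T) lam δ₁ δ₂ δ' ε r
    hL0 hlpos hε0 (by linarith) (by linarith) hm0 hmean2.2 hmean2.1 hδ1b hδ10 hδ1a hr0.le
    (by linarith) hr2 (by rw [← hB]; exact hrB) hUp hLo hlk hlk2 (by linarith [hhv.2])
    (by linarith [hT1.1]) hsm (by linarith [hT2.2])
  rw [← hl, ← hx]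
  exact this

end Pool.Agent.Helper61.SHT
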